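import Pool.Agent.H77.PUC.StmtsE

/-! # AGR: conjugacy of places over an intermediate field -/

universe u

namespace PUC

open Polynomial Filter Topology

theorem sAgr (hCNJ : SCnj.{u}) : SAgr.{u} := by
  intro K Ω _ _ _ _ _ _ _ _ _ F' P P' hag
  have : CharZero Ω := charZero_of_injective_algebraMap (algebraMap K Ω).injective
  have : CharZero F' := RingHom.charZero (algebraMap F' Ω)
  have : Algebra.IsAlgebraic F' Ω := Algebra.IsAlgebraic.tower_top (K := RatFunc K) F'
  have : IsAlgClosure F' Ω := ⟨inferInstance, inferInstance⟩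
  have : Normal F' Ω := IsAlgClosure.normal F' Ω
  obtain ⟨σ, hσ⟩ := hCNJ F' Ω P.ring P'.ring (fun c => hag (c : Ω) c.2)
  refine ⟨σ.restrictScalars (RatFunc K), ?_, ?_⟩
  · intro f hf
    exact σ.commutes ⟨f, hf⟩
  · apply Place.ext'
    ext f
    rw [Place.mem_gact]
    exact hσ f

end PUC
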