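import Pool.Agent.H77.PUC.StmtsE

/-! # PLX: places extend along algebraic extensions -/

universe u

namespace PUC

open Polynomial Filter Topology

/-- a non-zero polynomial can be scaled to have coefficients in a valuation ring, one of them `1` -/
theorem PLX_scale {k : Type*} [Field k] (A : ValuationSubring k) (p : k[X]) (hp : p ≠ 0) :
    ∃ q : k[X], (∀ i, q.coeff i ∈ A) ∧ (∃ i, q.coeff i = 1) ∧
      ∃ c : k, c ≠ 0 ∧ q = C c * p := by
  have hs : p.support.Nonempty := Polynomial.support_nonempty.2 hp
  obtain ⟨i, hi, hmax⟩ := Finset.exists_max_image p.support (fun j => A.valuation (p.coeff j)) hs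
  have hi0 : p.coeff i ≠ 0 := Polynomial.mem_support_iff.1 hi
  refine ⟨C (p.coeff i)⁻¹ * p, ?_, ⟨i, ?_⟩, (p.coeff i)⁻¹, inv_ne_zero hi0, rfl⟩
  · intro j
    rw [Polynomial.coeff_C_mul]
    by_cases hj : j ∈ p.support
    · rw [← A.valuation_le_one_iff, map_mul, map_inv₀]
      have h1 := hmax j hj
      have h2 : A.valuation (p.coeff i) ≠ 0 := by
        rw [Valuation.ne_zero_iff]; exact hi0
      calc (A.valuation (p.coeff i))⁻¹ * A.valuation (p.coeff j)
          ≤ (A.valuation (p.coeff i))⁻¹ * A.valuation (p.coeff i) := by gcongr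
        _ = 1 := inv_mul_cancel₀ h2
    · rw [Polynomial.notMem_support_iff.1 hj, mul_zero]
      exact A.zero_mem
  · rw [Polynomial.coeff_C_mul, inv_mul_cancel₀ hi0]

theorem sPlx (hEXV : SExv.{u}) : SPlx.{u} := by
  intro K E' E _ _ _ _ _ _ _ _ _ Q
  obtain ⟨A, hA⟩ := hEXV E' E Q.ring
  have halg : ∀ c : K, algebraMap K E c ∈ A := by
    intro c
    rw [IsScalarTower.algebraMap_apply K E' E, hA]
    exact Q.alg_mem c
  have hnon : ∀ c : E', c ∈ Q.ring.nonunits → algebraMap E' E c ∈ A.nonunits := by
    intro c hc
    rw [ValuationSubring.mem_nonunits_iff_or] at hc ⊢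
    rcases hc with hc | hc
    · left; rw [hc, map_zero]
    · right
      rw [← map_inv₀, hA]
      exact hc
  have hmulnon : ∀ a b : E, a ∈ A.nonunits → b ∈ A → a * b ∈ A.nonunits := by
    intro a b ha hb
    rw [ValuationSubring.mem_nonunits_iff] at *
    rw [map_mul]
    have hb' := (A.valuation_le_one_iff b).2 hb
    calc A.valuation a * A.valuation b ≤ A.valuation a * 1 := by gcongr
      _ = A.valuation a := mul_one _
      _ < 1 := ha
  have hres : ∀ f ∈ A, ∃ c : K, f - algebraMap K E c ∈ A.nonunits := by
    intro f hf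
    have hpow : ∀ n : ℕ, f ^ n ∈ A := by
      intro n
      induction n with
      | zero => simp [A.one_mem]
      | succ n ih => rw [pow_succ]; exact A.mul_mem _ _ ih hf
    obtain ⟨p, hp, hpf⟩ := Algebra.IsAlgebraic.isAlgebraic (R := E') f
    obtain ⟨q, hq1, ⟨i, hi⟩, c, hc, hqc⟩ := PLX_scale Q.ring p hp
    have hqf : aeval f q = 0 := by rw [hqc, map_mul, hpf, mul_zero]
    -- the reduction
    let r : K[X] := ∑ j ∈ Finset.range (q.natDegree + 1), Polynomial.monomial j (Q.val (q.coeff j))
    have hrc : ∀ j, r.coeff j = if j ∈ Finset.range (q.natDegree + 1) then Q.val (q.coeff j) else 0 := by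
      intro j
      simp only [r, Polynomial.finsetSum_coeff, Polynomial.coeff_monomial]
      rw [Finset.sum_ite_eq']
    have hr0 : r ≠ 0 := by
      intro h0
      have h1 := hrc i
      rw [h0, Polynomial.coeff_zero, hi, Place.val_one, if_pos] at h1
      · exact one_ne_zero h1.symm
      · rw [Finset.mem_range]
        have : q.coeff i ≠ 0 := by rw [hi]; exact one_ne_zero
        exact Nat.lt_succ_of_le (Polynomial.le_natDegree_of_ne_zero this)
    have hrf : aeval f r ∈ A.nonunits := by
      have h1 : aeval f r = ∑ j ∈ Finset.range (q.natDegree + 1),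
          (-(algebraMap E' E (q.coeff j - algebraMap K E' (Q.val (q.coeff j)))) * f ^ j) +
            aeval f q := by
        rw [Polynomial.aeval_eq_sum_range (p := q), ← Finset.sum_add_distrib]
        simp only [r, map_sum, Polynomial.aeval_monomial]
        apply Finset.sum_congr rfl
        intro j _
        rw [map_sub, Algebra.smul_def, IsScalarTower.algebraMap_apply K E' E]
        ring
      rw [h1, hqf, add_zero]
      have h2 : ∀ j ∈ Finset.range (q.natDegree + 1),
          (-(algebraMap E' E (q.coeff j - algebraMap K E' (Q.val (q.coeff j)))) * f ^ j) ∈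
            A.nonunits := by
        intro j _
        apply hmulnon _ _ _ (hpow j)
        exact A.nonunits.neg_mem (hnon _ (Q.sub_val (hq1 j)))
      exact sum_mem h2
    -- factor the reduction
    have hsp : r.Splits := IsAlgClosed.splits r
    by_contra hcon
    push Not at hcon
    have hv : ∀ a : K, A.valuation (f - algebraMap K E a) = 1 := by
      intro a
      have h1 := hcon a
      rw [ValuationSubring.mem_nonunits_iff, not_lt] at h1
      have h2 : f - algebraMap K E a ∈ A := by
        rw [sub_eq_add_neg]
        exact A.add_mem _ _ hf (A.neg_mem _ (halg a))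
      exact le_antisymm ((A.valuation_le_one_iff _).2 h2) h1
    have hlc : A.valuation (algebraMap K E r.leadingCoeff) = 1 := by
      have h0 : r.leadingCoeff ≠ 0 := Polynomial.leadingCoeff_ne_zero.2 hr0
      apply le_antisymm ((A.valuation_le_one_iff _).2 (halg _))
      have h1 := (A.valuation_le_one_iff _).2 (halg (r.leadingCoeff)⁻¹)
      rw [map_inv₀, map_inv₀] at h1
      have h2 : A.valuation (algebraMap K E r.leadingCoeff) ≠ 0 := by
        rw [Valuation.ne_zero_iff]
        exact (_root_.map_ne_zero _).2 h0
      by_contra h3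
      rw [not_le] at h3
      exact absurd h1 (not_le.2 ((one_lt_inv₀ (zero_lt_iff.2 h2)).2 h3))
    have hval : A.valuation (aeval f r) = 1 := by
      have h1 : r = C r.leadingCoeff * (r.roots.map fun a => X - C a).prod :=
        hsp.eq_prod_roots
      have h2 : aeval f r = algebraMap K E r.leadingCoeff *
          (r.roots.map fun a => f - algebraMap K E a).prod := by
        conv_lhs => rw [h1]
        rw [map_mul, Polynomial.aeval_C, map_multiset_prod, Multiset.map_map]
        simp
      rw [h2, map_mul, hlc, one_mul, map_multiset_prod, Multiset.map_map]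
      apply Multiset.prod_eq_one
      intro x hx
      rw [Multiset.mem_map] at hx
      obtain ⟨a, _, rfl⟩ := hx
      exact hv a
    rw [ValuationSubring.mem_nonunits_iff, hval] at hrf
    exact lt_irrefl _ hrf
  refine ⟨⟨A, halg, hres⟩, ?_⟩
  apply Place.ext'
  ext c
  exact hA c

end PUC
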